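import Mathlib

set_option autoImplicit false

namespace Pool.Agent.Results.MP_c65526_co.PrincipalRatio

open Finset

/-- `q` is a principal eigenvector of the finite graph `H`: all coordinates of `q` are positive, and
`q` is an eigenvector of the adjacency matrix of `H` for its largest eigenvalue. -/
def IsPrincipalEigenvector {V : Type*} [Fintype V] [DecidableEq V] (H : SimpleGraph V)
    [DecidableRel H.Adj] (q : V → ℝ) : Prop :=
  (∀ v, 0 < q v) ∧
    ∃ μ : ℝ, IsGreatest (spectrum ℝ (H.adjMatrix ℝ)) μ ∧ (H.adjMatrix ℝ).mulVec q = μ • q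

/-! ### Existence of the principal eigenvector of a connected graph -/

theorem exists_principal {V : Type*} [Fintype V] [DecidableEq V] (H : SimpleGraph V)
    [DecidableRel H.Adj] (hH : H.Connected) : ∃ q : V → ℝ, IsPrincipalEigenvector H q := by
  have : Nonempty V := hH.nonempty
  set A : Matrix V V ℝ := H.adjMatrix ℝ with hAdef
  have hA : A.IsHermitian := by
    ext x y
    simp [hAdef, SimpleGraph.adj_comm]
  have hspec : spectrum ℝ A = Set.range hA.eigenvalues := hA.spectrum_real_eq_range_eigenvalues
  obtain ⟨i, hi⟩ := Finite.exists_max hA.eigenvalues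
  set μ : ℝ := hA.eigenvalues i with hμdef
  have hμ : IsGreatest (spectrum ℝ A) μ := by
    rw [hspec]
    exact ⟨⟨i, rfl⟩, by rintro _ ⟨j, rfl⟩; exact hi j⟩
  -- the matrix `μ • 1 - A` is positive semidefinite
  have hB : (Matrix.PosSemidef (algebraMap ℝ (Matrix V V ℝ) μ - A)) := by
    rw [Matrix.posSemidef_iff_isHermitian_and_spectrum_nonneg]
    constructor
    · apply Matrix.IsHermitian.sub _ hA
      rw [Matrix.algebraMap_eq_diagonal]
      exact Matrix.isHermitian_diagonal _
    · intro a ha
      rw [← spectrum.singleton_sub_eq] at ha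
      obtain ⟨b, hb, c, hc, rfl⟩ := Set.mem_sub.mp ha
      have := hμ.2 hc
      simp only [Set.mem_singleton_iff] at hb
      change 0 ≤ b - c
      linarith
  -- an eigenvector for `μ`
  set x : V → ℝ := ⇑(hA.eigenvectorBasis i) with hxdef
  have hx : A.mulVec x = μ • x := hA.mulVec_eigenvectorBasis i
  have hx0 : x ≠ 0 := by
    intro h
    have h1 := hA.eigenvectorBasis.orthonormal.ne_zero i
    apply h1
    ext v
    exact congrFun h v
  set y : V → ℝ := fun v => |x v| with hydef
  have hBy : ∀ z : V → ℝ, (algebraMap ℝ (Matrix V V ℝ) μ - A).mulVec z = μ • z - A.mulVec z := by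
    intro z
    rw [Matrix.sub_mulVec, Algebra.algebraMap_eq_smul_one, Matrix.smul_mulVec, Matrix.one_mulVec]
  have hyAy : μ * ∑ v, y v * y v ≤ ∑ v, y v * (A.mulVec y) v := by
    have h1 : μ * ∑ v, y v * y v = ∑ v, x v * (A.mulVec x) v := by
      rw [hx, Finset.mul_sum]
      apply Finset.sum_congr rfl
      intro v _
      simp only [hydef, Pi.smul_apply, smul_eq_mul, abs_mul_abs_self]
      ring
    rw [h1]
    apply Finset.sum_le_sum
    intro v _
    simp only [Matrix.mulVec, dotProduct, Finset.mul_sum]
    apply Finset.sum_le_sum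
    intro w _
    have hnn : 0 ≤ A v w := by
      simp only [hAdef, SimpleGraph.adjMatrix_apply]
      split_ifs <;> norm_num
    calc x v * (A v w * x w) = A v w * (x v * x w) := by ring
      _ ≤ A v w * (|x v| * |x w|) := by
          apply mul_le_mul_of_nonneg_left _ hnn
          rw [← abs_mul]; exact le_abs_self _
      _ = y v * (A v w * y w) := by simp only [hydef]; ring
  have hy : A.mulVec y = μ • y := by
    have h0 : star y ⬝ᵥ (algebraMap ℝ (Matrix V V ℝ) μ - A).mulVec y = 0 := by
      apply le_antisymm
      · rw [hBy]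
        simp only [dotProduct, star_trivial, Pi.sub_apply, Pi.smul_apply, smul_eq_mul, mul_sub,
          Finset.sum_sub_distrib]
        have : ∑ v, y v * (μ * y v) = μ * ∑ v, y v * y v := by
          rw [Finset.mul_sum]; apply Finset.sum_congr rfl; intro v _; ring
        rw [this]; linarith
      · exact hB.dotProduct_mulVec_nonneg y
    have h1 := (hB.dotProduct_mulVec_zero_iff y).mp h0
    rw [hBy, sub_eq_zero] at h1
    exact h1.symm
  have hynn : ∀ v, 0 ≤ y v := fun v => abs_nonneg _
  -- zeros of `y` propagate along edges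
  have hprop : ∀ v w, H.Adj v w → y v = 0 → y w = 0 := by
    intro v w hvw hv
    have h1 := congrFun hy v
    simp only [Pi.smul_apply, smul_eq_mul, hv, mul_zero, Matrix.mulVec, dotProduct] at h1
    have h2 : ∀ z ∈ (univ : Finset V), 0 ≤ A v z * y z := by
      intro z _
      apply mul_nonneg _ (hynn z)
      simp only [hAdef, SimpleGraph.adjMatrix_apply]
      split_ifs <;> norm_num
    have h3 := (Finset.sum_eq_zero_iff_of_nonneg h2).mp h1 w (mem_univ w)
    simpa [hAdef, hvw] using h3
  have hpos : ∀ v, 0 < y v := by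
    intro v
    rcases (hynn v).lt_or_eq with h | h
    · exact h
    exfalso
    apply hx0
    funext w
    have hr : ∀ z, H.Reachable v z → y z = 0 := by
      intro z hz
      obtain ⟨p⟩ := hz
      induction p with
      | nil => exact h.symm
      | cons hadj p ih =>
        rename_i a b c
        have h' := hprop _ _ hadj h.symm
        exact ih h'.symm
    have := hr w (hH.preconnected v w)
    simpa [hydef] using this
  exact ⟨y, hpos, μ, hμ, hy⟩

/-! ### The flux inequality -/

section Flux

variable {V : Type*} [Fintype V] [DecidableEq V]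

/-- The total drop of `q` over the boundary of a sublevel set is the sum of the Laplacian over it. -/
theorem edge_le_flux (A : V → V → ℝ) (hA0 : ∀ x y, 0 ≤ A x y) (hsym : ∀ x y, A x y = A y x)
    (q : V → ℝ) (t : ℝ) (a b : V) (ha : t < q a) (hb : q b ≤ t) :
    A b a * (q a - q b) ≤
      ∑ w ∈ univ.filter (fun w => q w ≤ t), ∑ x, A w x * (q x - q w) := by
  set T : Finset V := univ.filter (fun w => q w ≤ t) with hT
  have hsplit : ∑ w ∈ T, ∑ x, A w x * (q x - q w) =
      ∑ w ∈ T, ∑ x ∈ T, A w x * (q x - q w) + ∑ w ∈ T, ∑ x ∈ Tᶜ, A w x * (q x - q w) := by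
    rw [← Finset.sum_add_distrib]
    apply Finset.sum_congr rfl
    intro w _
    rw [Finset.sum_add_sum_compl]
  have hzero : ∑ w ∈ T, ∑ x ∈ T, A w x * (q x - q w) = 0 := by
    have h1 : ∑ w ∈ T, ∑ x ∈ T, A w x * (q x - q w) =
        ∑ w ∈ T, ∑ x ∈ T, A x w * (q w - q x) := Finset.sum_comm
    have h2 : ∑ w ∈ T, ∑ x ∈ T, A x w * (q w - q x) =
        - ∑ w ∈ T, ∑ x ∈ T, A w x * (q x - q w) := by
      rw [← Finset.sum_neg_distrib]
      apply Finset.sum_congr rfl
      intro w _
      rw [← Finset.sum_neg_distrib]
      apply Finset.sum_congr rfl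
      intro x _
      rw [hsym x w]; ring
    linarith
  rw [hsplit, hzero, zero_add]
  have hnn : ∀ w ∈ T, ∀ x ∈ Tᶜ, 0 ≤ A w x * (q x - q w) := by
    intro w hw x hx
    apply mul_nonneg (hA0 w x)
    have h1 : q w ≤ t := by simpa [hT] using hw
    have h2 : t < q x := by simpa [hT] using hx
    linarith
  have hbT : b ∈ T := by simpa [hT] using hb
  have haT : a ∈ Tᶜ := by simpa [hT] using ha
  calc A b a * (q a - q b) ≤ ∑ x ∈ Tᶜ, A b x * (q x - q b) :=
        Finset.single_le_sum (f := fun x => A b x * (q x - q b)) (fun x hx => hnn b hbT x hx) haT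
    _ ≤ ∑ w ∈ T, ∑ x ∈ Tᶜ, A w x * (q x - q w) :=
        Finset.single_le_sum (f := fun w => ∑ x ∈ Tᶜ, A w x * (q x - q w))
          (fun w hw => Finset.sum_nonneg (fun x hx => hnn w hw x hx)) hbT

end Flux

/-! ### The main estimate -/

theorem main_bound {V : Type*} [Fintype V] [DecidableEq V] (G : SimpleGraph V)
    [DecidableRel G.Adj] (d : ℕ) (hreg : G.IsRegularOfDegree d) (u v : V) (huv : G.Adj u v)
    (hconn : (G.deleteEdges {s(u, v)}).Connected) (q : V → ℝ) (hq : ∀ x, 0 < q x) (μ : ℝ)
    (hμ : ((G.deleteEdges {s(u, v)}).adjMatrix ℝ).mulVec q = μ • q) (x y : V) :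
    q x ≤ (Fintype.card V : ℝ) * (Fintype.card V + 1) * q y := by
  set H := G.deleteEdges {s(u, v)} with hHdef
  have huv' : u ≠ v := huv.ne
  set A : V → V → ℝ := fun a b => if H.Adj a b then 1 else 0 with hAdef
  have hA0 : ∀ a b, 0 ≤ A a b := by intro a b; simp only [hAdef]; split_ifs <;> norm_num
  have hsym : ∀ a b, A a b = A b a := by intro a b; simp only [hAdef, SimpleGraph.adj_comm]
  have heig : ∀ w, ∑ a, A w a * q a = μ * q w := by
    intro w
    have := congrFun hμ w
    simp only [Matrix.mulVec, dotProduct, SimpleGraph.adjMatrix_apply, Pi.smul_apply,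
      smul_eq_mul] at this
    exact this
  -- row sums
  have hrow : ∀ w, ∑ a, A w a = d - (if w = u then 1 else 0) - (if w = v then 1 else 0) := by
    intro w
    have h1 : ∀ a, A w a = (if G.Adj w a then (1:ℝ) else 0) - (if w = u ∧ a = v then 1 else 0)
        - (if w = v ∧ a = u then 1 else 0) := by
      intro a
      simp only [hAdef, hHdef, SimpleGraph.deleteEdges_adj, Set.mem_singleton_iff, Sym2.eq_iff]
      by_cases h2 : w = u ∧ a = v
      · obtain ⟨rfl, rfl⟩ := h2
        have h3 : ¬ (w = a ∧ a = w) := fun h => huv' h.1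
        simp [huv, h3]
      · by_cases h3 : w = v ∧ a = u
        · obtain ⟨rfl, rfl⟩ := h3
          have h4 : ¬ (w = a ∧ a = w) := fun h => huv' h.2
          simp [huv.symm, h4]
        · simp [h2, h3]
    simp only [h1, Finset.sum_sub_distrib]
    have h4 : ∑ a, (if G.Adj w a then (1:ℝ) else 0) = d := by
      rw [Finset.sum_boole]
      have := hreg w
      rw [← this, ← SimpleGraph.card_neighborFinset_eq_degree]
      congr 2
      ext a; simp
    have h5 : ∑ a, (if w = u ∧ a = v then (1:ℝ) else 0) = if w = u then 1 else 0 := by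
      by_cases h : w = u <;> simp [h]
    have h6 : ∑ a, (if w = v ∧ a = u then (1:ℝ) else 0) = if w = v then 1 else 0 := by
      by_cases h : w = v <;> simp [h]
    rw [h4, h5, h6]
  -- the Laplacian equation
  have hlap : ∀ w, ∑ a, A w a * (q a - q w) =
      (μ - d) * q w + (if w = u then q u else 0) + (if w = v then q v else 0) := by
    intro w
    have h1 : ∑ a, A w a * (q a - q w) = ∑ a, A w a * q a - (∑ a, A w a) * q w := by
      rw [Finset.sum_mul, ← Finset.sum_sub_distrib]
      apply Finset.sum_congr rfl; intro a _; ring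
    rw [h1, heig, hrow]
    by_cases h2 : w = u
    · subst h2; simp [huv']; ring
    · by_cases h3 : w = v
      · subst h3; simp [h2]; ring
      · simp [h2, h3]; ring
  -- total
  have htot : (d - μ) * ∑ w, q w = q u + q v := by
    have h1 : ∑ w, ∑ a, A w a * (q a - q w) = 0 := by
      have h2 : ∑ w, ∑ a, A w a * (q a - q w) = ∑ w, ∑ a, A a w * (q w - q a) := Finset.sum_comm
      have h3 : ∑ w, ∑ a, A a w * (q w - q a) = - ∑ w, ∑ a, A w a * (q a - q w) := by
        rw [← Finset.sum_neg_distrib]
        apply Finset.sum_congr rfl; intro w _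
        rw [← Finset.sum_neg_distrib]
        apply Finset.sum_congr rfl; intro a _
        rw [hsym a w]; ring
      linarith
    simp only [hlap, Finset.sum_add_distrib, ← Finset.mul_sum] at h1
    simp at h1
    linarith
  have hsumpos : 0 < ∑ w, q w := by
    apply Finset.sum_pos (fun w _ => hq w)
    exact ⟨u, mem_univ u⟩
  have hδ : 0 < d - μ := by
    by_contra hcon
    push Not at hcon
    have h1 : (d - μ) * ∑ w, q w ≤ 0 := mul_nonpos_of_nonpos_of_nonneg hcon hsumpos.le
    have := hq u; have := hq v
    linarith
  -- flux bound over every level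
  have hflux : ∀ t : ℝ, ∑ w ∈ univ.filter (fun w => q w ≤ t), ∑ a, A w a * (q a - q w) ≤
      (if q u ≤ t then q u else 0) + (if q v ≤ t then q v else 0) := by
    intro t
    have h1 : ∀ w ∈ univ.filter (fun w => q w ≤ t), ∑ a, A w a * (q a - q w) ≤
        (if w = u then q u else 0) + (if w = v then q v else 0) := by
      intro w _
      rw [hlap]
      have : (μ - d) * q w ≤ 0 := mul_nonpos_of_nonpos_of_nonneg (by linarith) (hq w).le
      linarith
    refine (Finset.sum_le_sum h1).trans (le_of_eq ?_)
    rw [Finset.sum_add_distrib, Finset.sum_ite_eq', Finset.sum_ite_eq']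
    simp
  have hedge : ∀ a b, H.Adj a b → q b < q a →
      q a - q b ≤ (if q u ≤ q b then q u else 0) + (if q v ≤ q b then q v else 0) := by
    intro a b hab hlt
    have h1 := edge_le_flux A hA0 hsym q (q b) a b hlt le_rfl
    have h2 : A b a = 1 := by simp [hAdef, hab.symm]
    rw [h2, one_mul] at h1
    exact h1.trans (hflux (q b))
  have hqu := hq u
  have hqv := hq v
  -- general gradient bound
  have hgrad : ∀ a b, H.Adj a b → q a - q b ≤ q u + q v := by
    intro a b hab
    by_cases hlt : q b < q a
    · have := hedge a b hab hlt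
      split_ifs at this <;> linarith
    · push Not at hlt; linarith
  have hpath : ∀ (a b : V) (p : H.Walk a b), q a ≤ q b + p.length * (q u + q v) := by
    intro a b p
    induction p with
    | nil => simp
    | cons hadj p ih =>
      have := hgrad _ _ hadj
      rw [SimpleGraph.Walk.length_cons]
      push_cast
      linarith
  -- walk from `u` to `v`: clipped gradient bound, from a general source `s` and target `t`
  have hratio : ∀ (s t : V), (∀ a b, H.Adj a b → q b < q a → q b < q s → q a - q b ≤ q t) →
      ∀ (a b : V) (p : H.Walk a b), min (q a) (q s) ≤ min (q b) (q s) + p.length * q t := by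
    intro s t hst a b p
    induction p with
    | nil => simp
    | @cons a c b hadj p ih =>
      rw [SimpleGraph.Walk.length_cons]
      push_cast
      have h1 : min (q a) (q s) ≤ min (q c) (q s) + q t := by
        have hqt := hq t
        by_cases hlt : q c < q a
        · by_cases h2 : q c < q s
          · have h3 := hst _ _ hadj hlt h2
            rw [min_eq_left h2.le]
            exact (min_le_left _ _).trans (by linarith)
          · push Not at h2
            rw [min_eq_right h2]
            exact (min_le_right _ _).trans (by linarith)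
        · push Not at hlt
          have : min (q a) (q s) ≤ min (q c) (q s) := min_le_min_right _ hlt
          linarith
      linarith
  have hlen : ∀ a b : V, ∃ p : H.Walk a b, (p.length : ℝ) + 1 ≤ Fintype.card V := by
    intro a b
    obtain ⟨p, hp⟩ := hconn.exists_isPath a b
    refine ⟨p, ?_⟩
    have := hp.length_lt
    exact_mod_cast this
  have huv_le : q u ≤ Fintype.card V * q v := by
    obtain ⟨p, hp⟩ := hlen u v
    have h1 := hratio u v (by
      intro a b hab hlt hbu
      have := hedge a b hab hlt
      rw [if_neg (not_le.mpr hbu)] at this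
      split_ifs at this <;> linarith) u v p
    rw [min_self] at h1
    have h2 : min (q v) (q u) ≤ q v := min_le_left _ _
    nlinarith
  have hvu_le : q v ≤ Fintype.card V * q u := by
    obtain ⟨p, hp⟩ := hlen v u
    have h1 := hratio v u (by
      intro a b hab hlt hbv
      have := hedge a b hab hlt
      rw [if_neg (not_le.mpr hbv)] at this
      split_ifs at this <;> linarith) v u p
    rw [min_self] at h1
    have h2 : min (q u) (q v) ≤ q u := min_le_left _ _
    nlinarith
  -- the minimum is attained at `u` or `v`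
  have hmin : ∀ w, q u ≤ q w ∨ q v ≤ q w := by
    intro w
    by_contra hcon
    push Not at hcon
    obtain ⟨h1, h2⟩ := hcon
    have h3 := edge_le_flux A hA0 hsym q (q w) u w h1 le_rfl
    have h4 : 0 ≤ A w u * (q u - q w) := mul_nonneg (hA0 _ _) (by linarith)
    have h5 : ∑ w' ∈ univ.filter (fun w' => q w' ≤ q w), ∑ a, A w' a * (q a - q w') < 0 := by
      apply Finset.sum_neg
      · intro w' hw'
        have hw'' : q w' ≤ q w := by simpa using hw'
        rw [hlap]
        have h6 : w' ≠ u := by rintro rfl; linarith
        have h7 : w' ≠ v := by rintro rfl; linarith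
        rw [if_neg h6, if_neg h7]
        have := mul_neg_of_neg_of_pos (show μ - d < 0 by linarith) (hq w')
        linarith
      · exact ⟨w, by simp⟩
    linarith
  have hn1 : (1 : ℝ) ≤ Fintype.card V := by
    have : 0 < Fintype.card V := Fintype.card_pos_iff.mpr ⟨u⟩
    exact_mod_cast this
  have hxle : q x ≤ Fintype.card V * (q u + q v) := by
    obtain ⟨p, hp⟩ := hlen x u
    have := hpath x u p
    nlinarith
  have hyge : q u + q v ≤ (Fintype.card V + 1) * q y := by
    rcases hmin y with h | h
    · nlinarith
    · nlinarith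
  calc q x ≤ Fintype.card V * (q u + q v) := hxle
    _ ≤ Fintype.card V * ((Fintype.card V + 1) * q y) := by
        apply mul_le_mul_of_nonneg_left hyge (by linarith)
    _ = (Fintype.card V : ℝ) * (Fintype.card V + 1) * q y := by ring

/-- Deleting a non-bridge edge `e` from a connected `d`-regular graph `G` on `n ≥ 3` vertices: the
principal eigenvector of `G - e` exists, and its principal ratio is at most `n (n + 1) ≤ n ^ 3`. -/
theorem result {V : Type*} [Fintype V] [DecidableEq V] (G : SimpleGraph V) [DecidableRel G.Adj]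
    (d : ℕ) (hn : 3 ≤ Fintype.card V) (hG : G.Connected) (hd : G.IsRegularOfDegree d)
    (e : Sym2 V) (he : e ∈ G.edgeSet) (hbr : ¬ G.IsBridge e) :
    (∃ q : V → ℝ, IsPrincipalEigenvector (G.deleteEdges {e}) q) ∧
      ∀ q : V → ℝ, IsPrincipalEigenvector (G.deleteEdges {e}) q →
        (⨆ v, q v) / (⨅ v, q v) ≤ (Fintype.card V : ℝ) * (Fintype.card V + 1) ∧
          (Fintype.card V : ℝ) * (Fintype.card V + 1) ≤ (Fintype.card V : ℝ) ^ 3 := by
  induction e using Sym2.ind with
  | _ u v =>
    have huv : G.Adj u v := by simpa using he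
    have hconn : (G.deleteEdges {s(u, v)}).Connected :=
      hG.connected_delete_edge_of_not_isBridge hbr
    refine ⟨exists_principal _ hconn, ?_⟩
    rintro q ⟨hq, μ, -, hμ⟩
    have : Nonempty V := ⟨u⟩
    have h3 : (3 : ℝ) ≤ Fintype.card V := by exact_mod_cast hn
    have hmain := main_bound G d hd u v huv hconn q hq μ hμ
    constructor
    · obtain ⟨x, hx⟩ := exists_eq_ciSup_of_finite (f := q)
      obtain ⟨y, hy⟩ := exists_eq_ciInf_of_finite (f := q)
      rw [← hx, ← hy, div_le_iff₀ (hq y)]
      exact hmain x y
    · have : (0 : ℝ) ≤ (Fintype.card V : ℝ) := by linarith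
      nlinarith [mul_nonneg this (mul_nonneg this (show (0 : ℝ) ≤ (Fintype.card V : ℝ) - 2 by linarith)),
        mul_nonneg this (show (0 : ℝ) ≤ (Fintype.card V : ℝ) - 1 by linarith)]

end Pool.Agent.Results.MP_c65526_co.PrincipalRatio
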